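import Mathlib
import Pool.Agent.W282.DZ.Stm

/-!
Part DZ-UP: the upper bound for the Hilbert function of a prime ideal, by Noether normalisation.
-/

open MvPolynomial
open Pool.Agent.W282.DZ

namespace Pool.Agent.W335.DZ

/-- The polynomials of degree at most `N` in `s` variables. -/
lemma finrank_rtd (s N : ℕ) :
    Module.finrank ℂ (restrictTotalDegree (Fin s) ℂ N) ≤ (N + 1) ^ s := by
  refine (Submodule.finrank_mono (restrictTotalDegree_le_restrictDegree (Fin s) ℂ N)).trans ?_
  rw [restrictDegree, Module.finrank_eq_nat_card_basis (basisRestrictSupport ℂ _)]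
  have hinj : Function.Injective
      (fun (m : {n : Fin s →₀ ℕ | ∀ i, n i ≤ N}) (i : Fin s) =>
        (⟨(m : Fin s →₀ ℕ) i, Nat.lt_succ_of_le (m.2 i)⟩ : Fin (N + 1))) := by
    intro m m' h
    apply Subtype.ext
    apply Finsupp.ext
    intro i
    have := congrFun h i
    simpa using congrArg Fin.val this
  have := Nat.card_le_card_of_injective _ hinj
  simpa using this

/-- Multiplication by polynomials of degree at most `K`, in terms of module generators. -/
theorem key {k A : Type*} [Field k] [CommRing A] [Algebra k A] {n s t : ℕ}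
    (g : MvPolynomial (Fin s) k →ₐ[k] A) (a : Fin t → A) (x : Fin n → A)
    (b : Fin n → Fin t → Fin t → MvPolynomial (Fin s) k)
    (hb : ∀ i j, x i * a j = ∑ l, g (b i j l) * a l)
    (c : Fin t → MvPolynomial (Fin s) k) (hc : 1 = ∑ l, g (c l) * a l)
    (e : ℕ) (heb : ∀ i j l, (b i j l).totalDegree ≤ e) (hec : ∀ l, (c l).totalDegree ≤ e)
    (K : ℕ) (p : MvPolynomial (Fin n) k) (hp : p.totalDegree ≤ K) :
    ∃ q : Fin t → MvPolynomial (Fin s) k, (∀ l, (q l).totalDegree ≤ e * (K + 1)) ∧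
      aeval x p = ∑ l, g (q l) * a l := by
  classical
  set R : ℕ → A → Prop := fun K y => ∃ q : Fin t → MvPolynomial (Fin s) k,
    (∀ l, (q l).totalDegree ≤ e * (K + 1)) ∧ y = ∑ l, g (q l) * a l with hR
  have hmono : ∀ K K' y, K ≤ K' → R K y → R K' y := by
    rintro K K' y hK ⟨q, h1, h2⟩
    exact ⟨q, fun l => (h1 l).trans (Nat.mul_le_mul_left _ (by omega)), h2⟩
  have hone : R 0 1 := ⟨c, fun l => by simpa using hec l, hc⟩
  have hzero : ∀ K, R K 0 := fun K => ⟨fun _ => 0, fun l => by simp, by simp⟩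
  have hadd : ∀ K y z, R K y → R K z → R K (y + z) := by
    rintro K y z ⟨q, h1, h2⟩ ⟨r, h3, h4⟩
    refine ⟨fun l => q l + r l, fun l => ?_, ?_⟩
    · exact (totalDegree_add _ _).trans (max_le (h1 l) (h3 l))
    · rw [h2, h4, ← Finset.sum_add_distrib]
      refine Finset.sum_congr rfl fun l _ => ?_
      rw [map_add, add_mul]
  have hsmul : ∀ K (u : k) y, R K y → R K (u • y) := by
    rintro K u y ⟨q, h1, h2⟩
    refine ⟨fun l => u • q l, fun l => (totalDegree_smul_le _ _).trans (h1 l), ?_⟩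
    rw [h2, Finset.smul_sum]
    refine Finset.sum_congr rfl fun l _ => ?_
    rw [map_smul, smul_mul_assoc]
  have hmul : ∀ K i y, R K y → R (K + 1) (x i * y) := by
    rintro K i y ⟨q, h1, h2⟩
    refine ⟨fun l => ∑ j, q j * b i j l, fun l => ?_, ?_⟩
    · refine (totalDegree_finsetSum _ _).trans (Finset.sup_le fun j _ => ?_)
      refine (totalDegree_mul _ _).trans ?_
      have := h1 j
      have := heb i j l
      calc (q j).totalDegree + (b i j l).totalDegree ≤ e * (K + 1) + e := by omega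
        _ = e * (K + 1 + 1) := by ring
    · rw [h2, Finset.mul_sum]
      have : ∀ j, x i * (g (q j) * a j) = ∑ l, g (q j * b i j l) * a l := by
        intro j
        rw [mul_left_comm, hb, Finset.mul_sum]
        refine Finset.sum_congr rfl fun l _ => ?_
        rw [map_mul, mul_assoc]
      rw [Finset.sum_congr rfl fun j _ => this j, Finset.sum_comm]
      refine Finset.sum_congr rfl fun l _ => ?_
      rw [map_sum, Finset.sum_mul]
  have hmon : ∀ S : Multiset (Fin n), R (Multiset.card S)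
      (aeval x (monomial (Multiset.toFinsupp S) (1 : k))) := by
    intro S
    induction S using Multiset.induction_on with
    | empty => simpa using hone
    | cons i S ih =>
      have h1 : (monomial (Multiset.toFinsupp (i ::ₘ S)) (1 : k) : MvPolynomial (Fin n) k)
          = X i * monomial (Multiset.toFinsupp S) (1 : k) := by
        rw [← Multiset.singleton_add, map_add, Multiset.toFinsupp_singleton, X,
          monomial_mul, one_mul]
      rw [h1, map_mul, aeval_X, Multiset.card_cons]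
      exact hmul _ _ _ ih
  have hmon' : ∀ m : Fin n →₀ ℕ, (m.sum fun _ e => e) ≤ K → R K (aeval x (monomial m (1 : k))) := by
    intro m hm
    have := hmon (Finsupp.toMultiset m)
    rw [Finsupp.toMultiset_toFinsupp, Finsupp.card_toMultiset] at this
    exact hmono _ _ _ hm this
  change R K (aeval x p)
  rw [p.as_sum, map_sum]
  refine Finset.sum_induction _ (R K) (fun y z hy hz => hadd K y z hy hz) (hzero K) ?_
  intro m hm
  have h2 : (monomial m (p.coeff m) : MvPolynomial (Fin n) k) = p.coeff m • monomial m (1 : k) := by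
    rw [smul_monomial, smul_eq_mul, mul_one]
  rw [h2, map_smul]
  refine hsmul _ _ _ (hmon' m ?_)
  exact (le_totalDegree hm).trans hp

/-- The dimension of the residue class ring is the number of variables of a Noether
normalisation. -/
lemma dimQ_eq {n s : ℕ} (P : Ideal (MvPolynomial (Fin n) ℂ)) [P.IsPrime]
    (g : MvPolynomial (Fin s) ℂ →ₐ[ℂ] (MvPolynomial (Fin n) ℂ ⧸ P))
    (hg : Function.Injective g) (hi : g.IsIntegral) : dimQ P = s := by
  let _ : Algebra (MvPolynomial (Fin s) ℂ) (MvPolynomial (Fin n) ℂ ⧸ P) := g.toRingHom.toAlgebra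
  have : IsScalarTower ℂ (MvPolynomial (Fin s) ℂ) (MvPolynomial (Fin n) ℂ ⧸ P) :=
    IsScalarTower.of_algebraMap_eq fun z => (g.commutes z).symm
  have : FaithfulSMul (MvPolynomial (Fin s) ℂ) (MvPolynomial (Fin n) ℂ ⧸ P) :=
    (faithfulSMul_iff_algebraMap_injective _ _).mpr hg
  have : Algebra.IsIntegral (MvPolynomial (Fin s) ℂ) (MvPolynomial (Fin n) ℂ ⧸ P) := ⟨hi⟩
  have : Algebra.IsAlgebraic (MvPolynomial (Fin s) ℂ) (MvPolynomial (Fin n) ℂ ⧸ P) :=
    inferInstance
  have h := _root_.trdeg_add_eq ℂ (MvPolynomial (Fin s) ℂ) (A := MvPolynomial (Fin n) ℂ ⧸ P)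
  have h0 : Algebra.trdeg (MvPolynomial (Fin s) ℂ) (MvPolynomial (Fin n) ℂ ⧸ P) = 0 :=
    _root_.trdeg_eq_zero
  rw [h0, add_zero, MvPolynomial.trdeg_of_isDomain] at h
  rw [dimQ, ← h]
  simp

/-- Module generators. -/
lemma gens {B A : Type*} [CommRing B] [CommRing A] (g : B →+* A) (hg : g.Finite) :
    ∃ (t : ℕ) (a : Fin t → A), ∀ y : A, ∃ q : Fin t → B, y = ∑ l, g (q l) * a l := by
  let _ : Algebra B A := g.toAlgebra
  have : Module.Finite B A := hg
  obtain ⟨t, a, ha⟩ := Module.Finite.exists_fin (R := B) (M := A)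
  refine ⟨t, a, fun y => ?_⟩
  have hy : y ∈ Submodule.span B (Set.range a) := ha ▸ Submodule.mem_top
  obtain ⟨q, hq⟩ := (Submodule.mem_span_range_iff_exists_fun _).1 hy
  exact ⟨q, hq.symm⟩

theorem up : Pool.Agent.W282.DZ.S_UP := by
  intro n P hP
  have := hP
  obtain ⟨s, g, hinj, hfin⟩ :=
    exists_finite_inj_algHom_of_fg ℂ (MvPolynomial (Fin n) ℂ ⧸ P)
  have hdim : dimQ P = s := dimQ_eq P g hinj hfin.to_isIntegral
  rw [hdim]
  obtain ⟨t, a, hrep⟩ := gens g.toRingHom hfin
  choose q hq using hrep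
  set x : Fin n → MvPolynomial (Fin n) ℂ ⧸ P := fun i => Ideal.Quotient.mkₐ ℂ P (X i) with hx
  set b : Fin n → Fin t → Fin t → MvPolynomial (Fin s) ℂ := fun i j => q (x i * a j) with hb
  set c : Fin t → MvPolynomial (Fin s) ℂ := q 1 with hc
  set e : ℕ := (∑ i, ∑ j, ∑ l, (b i j l).totalDegree) + ∑ l, (c l).totalDegree with he
  have heb : ∀ i j l, (b i j l).totalDegree ≤ e := by
    intro i j l
    have h1 : (b i j l).totalDegree ≤ ∑ l, (b i j l).totalDegree :=
      Finset.single_le_sum (f := fun l => (b i j l).totalDegree) (fun _ _ => Nat.zero_le _)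
        (Finset.mem_univ l)
    have h2 : (∑ l, (b i j l).totalDegree) ≤ ∑ j, ∑ l, (b i j l).totalDegree :=
      Finset.single_le_sum (f := fun j => ∑ l, (b i j l).totalDegree) (fun _ _ => Nat.zero_le _)
        (Finset.mem_univ j)
    have h3 : (∑ j, ∑ l, (b i j l).totalDegree) ≤ ∑ i, ∑ j, ∑ l, (b i j l).totalDegree :=
      Finset.single_le_sum (f := fun i => ∑ j, ∑ l, (b i j l).totalDegree)
        (fun _ _ => Nat.zero_le _) (Finset.mem_univ i)
    omega
  have hec : ∀ l, (c l).totalDegree ≤ e := by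
    intro l
    have h1 : (c l).totalDegree ≤ ∑ l, (c l).totalDegree :=
      Finset.single_le_sum (f := fun l => (c l).totalDegree) (fun _ _ => Nat.zero_le _)
        (Finset.mem_univ l)
    omega
  refine ⟨t * (e + 1) ^ s, fun K => ?_⟩
  set V := restrictTotalDegree (Fin s) ℂ (e * (K + 1)) with hV
  set Φ : (Fin t → V) →ₗ[ℂ] (MvPolynomial (Fin n) ℂ ⧸ P) :=
    ∑ l, (LinearMap.mulRight ℂ (a l)) ∘ₗ g.toLinearMap ∘ₗ V.subtype ∘ₗ LinearMap.proj l with hΦ
  have hle : lev P K ≤ LinearMap.range Φ := by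
    rintro _ ⟨p, hp, rfl⟩
    have hp' : p.totalDegree ≤ K := (mem_restrictTotalDegree _ _ _).1 hp
    obtain ⟨r, hr1, hr2⟩ := key g a x b (fun i j => hq _) c (hq 1) e heb hec K p hp'
    refine ⟨fun l => ⟨r l, (mem_restrictTotalDegree _ _ _).2 (hr1 l)⟩, ?_⟩
    have h3 : (Ideal.Quotient.mkₐ ℂ P) p = aeval x p := by
      have : (Ideal.Quotient.mkₐ ℂ P) = aeval x := by
        apply MvPolynomial.algHom_ext
        intro i
        rw [aeval_X]
      rw [this]
    change _ = (Ideal.Quotient.mkₐ ℂ P) p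
    rw [h3, hr2, hΦ]
    simp
  calc hil P K ≤ Module.finrank ℂ (LinearMap.range Φ) := Submodule.finrank_mono hle
    _ ≤ Module.finrank ℂ (Fin t → V) := LinearMap.finrank_range_le Φ
    _ = t * Module.finrank ℂ V := by
        rw [Module.finrank_pi_fintype]
        simp
    _ ≤ t * (e * (K + 1) + 1) ^ s := Nat.mul_le_mul_left _ (finrank_rtd s _)
    _ ≤ t * ((e + 1) * (K + 1)) ^ s :=
        Nat.mul_le_mul_left _ (Nat.pow_le_pow_left (by nlinarith) _)
    _ = t * (e + 1) ^ s * (K + 1) ^ s := by rw [mul_pow, mul_assoc]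

end Pool.Agent.W335.DZ
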